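import Pool.Agent.Y300.KS.Stm

/-! Project KS (helper300): tasks `S_TGT` and `S_SW`. -/

set_option autoImplicit false

open Set Filter Topology

namespace Pool.Agent.Y394.KS

open Pool.Agent.Y300.KS Pool.Agent.K300

theorem ring_closed (p ρ : ℝ) : IsClosed (ring p ρ) := by
  have h1 : IsClosed {z : ℝ × ℝ | |z.1 - p| ≤ ρ} :=
    isClosed_le (by fun_prop) continuous_const
  have h2 : IsClosed {z : ℝ × ℝ | |z.2| ≤ ρ} :=
    isClosed_le (by fun_prop) continuous_const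
  have h3 : IsClosed {z : ℝ × ℝ | ρ / 2 ≤ |z.1 - p|} :=
    isClosed_le continuous_const (by fun_prop)
  have h4 : IsClosed {z : ℝ × ℝ | ρ / 2 ≤ |z.2|} :=
    isClosed_le continuous_const (by fun_prop)
  have h5 : ring p ρ = {z : ℝ × ℝ | |z.1 - p| ≤ ρ} ∩ ({z : ℝ × ℝ | |z.2| ≤ ρ} ∩
      ({z : ℝ × ℝ | ρ / 2 ≤ |z.1 - p|} ∪ {z : ℝ × ℝ | ρ / 2 ≤ |z.2|})) := by
    ext z
    rfl
  rw [h5]
  exact h1.inter (h2.inter (h3.union h4))

theorem ring_nest {p ρ q σ : ℝ} (h : |q - p| + σ < ρ / 2) {z : ℝ × ℝ} (hz : z ∈ ring q σ) :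
    z ∉ ring p ρ := by
  obtain ⟨h1, h2, _⟩ := hz
  rintro ⟨_, _, h3⟩
  have h4 : |z.1 - p| ≤ |z.1 - q| + |q - p| := by
    have := abs_sub_le z.1 q p
    exact this
  have h5 := abs_nonneg (q - p)
  rcases h3 with h3 | h3 <;> linarith

theorem ring_disj {p ρ q σ : ℝ} (h : ρ + σ < |p - q|) {z : ℝ × ℝ} (hz : z ∈ ring q σ) :
    z ∉ ring p ρ := by
  obtain ⟨h1, _, _⟩ := hz
  rintro ⟨h2, _, _⟩
  have h4 : |p - q| ≤ |z.1 - p| + |z.1 - q| := by
    have := abs_sub_le p z.1 q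
    rw [abs_sub_comm p z.1] at this
    exact this
  linarith

theorem ring_pair {k : ℕ} {r : Fin k → Fin k → Prop} {p ρ : Fin k → ℝ} {B : ℝ}
    (hs : Sq k r p ρ B) {a b : Fin k} (hab : a ≠ b) {z : ℝ × ℝ} (hz : z ∈ ring (p b) (ρ b)) :
    z ∉ ring (p a) (ρ a) := by
  by_cases h1 : r a b
  · exact ring_nest (hs.nest a b h1) hz
  · by_cases h2 : r b a
    · intro h
      exact ring_nest (hs.nest b a h2) h hz
    · exact ring_disj (hs.disj a b hab h1 h2) hz

theorem tgf_cont (p ρ : ℝ) : Continuous (tgf p ρ) := by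
  unfold tgf tp tq
  fun_prop

theorem tgt_all : S_TGT := by
  classical
  intro k r p ρ B hs _
  have hU : ∀ a : Fin k, ∃ χ : C(ℝ × ℝ, ℝ),
      EqOn χ 0 (⋃ b ∈ {b : Fin k | b ≠ a}, ring (p b) (ρ b)) ∧
      EqOn χ 1 (ring (p a) (ρ a)) := by
    intro a
    have hcl : IsClosed (⋃ b ∈ {b : Fin k | b ≠ a}, ring (p b) (ρ b)) :=
      (Set.toFinite _).isClosed_biUnion fun b _ => ring_closed _ _
    obtain ⟨χ, h1, h2, _⟩ := exists_continuous_zero_one_of_isClosed hcl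
      (ring_closed (p a) (ρ a)) (by
        rw [Set.disjoint_left]
        intro z hz hza
        obtain ⟨b, hb, hzb⟩ := Set.mem_iUnion₂.1 hz
        exact ring_pair hs hb hza hzb)
    exact ⟨χ, h1, h2⟩
  choose χ h0 h1 using hU
  refine ⟨fun z => ∑ a, χ a z • tgf (p a) (ρ a) z, ?_, ?_⟩
  · exact continuous_finsetSum _ fun a _ => (χ a).continuous.smul (tgf_cont _ _)
  · intro a z hz
    simp only
    rw [Finset.sum_eq_single a]
    · rw [h1 a hz, Pi.one_apply, one_smul]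
    · intro b _ hb
      have : z ∈ ⋃ c ∈ {c : Fin k | c ≠ b}, ring (p c) (ρ c) :=
        Set.mem_iUnion₂.2 ⟨a, hb.symm, hz⟩
      rw [h0 b this, Pi.zero_apply, zero_smul]
    · simp

theorem sw_aux (B : ℝ) (f : ℝ × ℝ → ℝ) (hf : Continuous f) {ε : ℝ} (hε : 0 < ε) :
    ∃ c : ℕ × ℕ →₀ ℝ, ∀ u v : ℝ, |u| ≤ B → |v| ≤ B →
      |(c.sum fun t r => r * Real.exp (t.1 * u + t.2 * v)) - f (u, v)| ≤ ε := by
  classical
  let X : Set (ℝ × ℝ) := Metric.closedBall (0 : ℝ × ℝ) B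
  have hX : CompactSpace X := isCompact_iff_compactSpace.1 (isCompact_closedBall _ _)
  let e1 : C(X, ℝ) := ⟨fun x => Real.exp x.1.1, by fun_prop⟩
  let e2 : C(X, ℝ) := ⟨fun x => Real.exp x.1.2, by fun_prop⟩
  let F : C(X, ℝ) := ⟨fun x => f x.1, hf.comp continuous_subtype_val⟩
  have hsep : (Algebra.adjoin ℝ ({e1, e2} : Set C(X, ℝ))).SeparatesPoints := by
    intro x y hxy
    have h1 : x.1.1 ≠ y.1.1 ∨ x.1.2 ≠ y.1.2 := by
      by_contra hcon
      push Not at hcon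
      exact hxy (Subtype.ext (Prod.ext hcon.1 hcon.2))
    rcases h1 with h | h
    · refine ⟨e1, ⟨e1, Algebra.subset_adjoin (by simp), rfl⟩, fun h' => h (Real.exp_injective h')⟩
    · refine ⟨e2, ⟨e2, Algebra.subset_adjoin (by simp), rfl⟩, fun h' => h (Real.exp_injective h')⟩
  obtain ⟨⟨g, hg⟩, hgF⟩ := ContinuousMap.exists_mem_subalgebra_near_continuousMap_of_separatesPoints
    _ hsep F ε hε
  have h2 : g ∈ Submodule.span ℝ (Set.range fun t : ℕ × ℕ => e1 ^ t.1 * e2 ^ t.2) := by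
    have h3 : g ∈ Subalgebra.toSubmodule (Algebra.adjoin ℝ ({e1, e2} : Set C(X, ℝ))) := hg
    rw [Algebra.adjoin_eq_span] at h3
    refine Submodule.span_mono ?_ h3
    intro x hx
    obtain ⟨m, n, h⟩ := (Submonoid.mem_closure_pair _ _ _).1 hx
    exact ⟨(m, n), h⟩
  obtain ⟨c, hc⟩ := Finsupp.mem_span_range_iff_exists_finsupp.1 h2
  refine ⟨c, fun u v hu hv => ?_⟩
  have hmem : ((u, v) : ℝ × ℝ) ∈ X := by
    rw [Metric.mem_closedBall, dist_zero_right, Prod.norm_def]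
    exact max_le hu hv
  have h4 := ContinuousMap.norm_coe_le_norm (g - F) ⟨(u, v), hmem⟩
  have h5 : (g - F) ⟨(u, v), hmem⟩ =
      (c.sum fun t r => r * Real.exp (t.1 * u + t.2 * v)) - f (u, v) := by
    rw [ContinuousMap.sub_apply, ← hc, Finsupp.sum, Finsupp.sum, ContinuousMap.sum_apply]
    congr 1
    refine Finset.sum_congr rfl fun t _ => ?_
    change c t * (Real.exp u ^ t.1 * Real.exp v ^ t.2) = _
    rw [Real.exp_add, Real.exp_nat_mul, Real.exp_nat_mul]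
  rw [h5, Real.norm_eq_abs] at h4
  exact h4.trans hgF.le

theorem sw_all : S_SW := by
  classical
  intro V hV B ε hε
  obtain ⟨c1, h1⟩ := sw_aux B (fun z => (V z).1) (continuous_fst.comp hV) hε
  obtain ⟨c2, h2⟩ := sw_aux B (fun z => (V z).2) (continuous_snd.comp hV) hε
  obtain ⟨N, hN⟩ : ∃ N : ℕ, ∀ t ∈ c1.support ∪ c2.support, t.1 < N ∧ t.2 < N := by
    refine ⟨(∑ t ∈ c1.support ∪ c2.support, (t.1 + t.2)) + 1, fun t ht => ?_⟩
    have := Finset.single_le_sum (f := fun t : ℕ × ℕ => t.1 + t.2) (fun _ _ => Nat.zero_le _) ht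
    constructor <;> omega
  have key : ∀ c : ℕ × ℕ →₀ ℝ, c.support ⊆ c1.support ∪ c2.support → ∀ u v : ℝ,
      ∑ a : Fin N, ∑ b : Fin N, c ((a : ℕ), (b : ℕ)) * Real.exp ((a : ℕ) * u + (b : ℕ) * v) =
      c.sum fun t r => r * Real.exp (t.1 * u + t.2 * v) := by
    intro c hc u v
    rw [Finsupp.sum, Finset.sum_subset (s₂ := Finset.range N ×ˢ Finset.range N)]
    · rw [Finset.sum_product, Finset.sum_range]
      refine Finset.sum_congr rfl fun a _ => ?_
      rw [Finset.sum_range]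
    · intro t ht
      have := hN t (hc ht)
      rw [Finset.mem_product, Finset.mem_range, Finset.mem_range]
      exact this
    · intro t _ ht
      rw [Finsupp.notMem_support_iff.1 ht, zero_mul]
  refine ⟨N, ![fun a b => c1 ((a : ℕ), (b : ℕ)), fun a b => c2 ((a : ℕ), (b : ℕ))], ?_⟩
  intro u v hu hv
  constructor
  · have := h1 u v hu hv
    rw [← key c1 Finset.subset_union_left] at this
    exact this
  · have := h2 u v hu hv
    rw [← key c2 Finset.subset_union_right] at this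
    exact this

end Pool.Agent.Y394.KS
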